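import Mathlib
import Pool.Agent.R559.NP.Near

/-!
Properties which fail only for few rational numbers of every denominator, and rational approximations of real numbers
(helper file).
-/

set_option autoImplicit false

open Filter Topology MeasureTheory

namespace Pool.Agent.T6.H41.NR

/-- `V` has `O(N ^ (σ + ε))` elements up to `N`, for all `ε > 0` -/
def ExpCount (V : Set ℕ) (σ : ℝ) : Prop :=
  ∀ ε : ℝ, 0 < ε → ∃ K : ℝ, ∀ N : ℕ, 1 ≤ N → {v | v ∈ V ∧ 1 ≤ v ∧ v ≤ N}.ncard ≤ K * (N : ℝ) ^ (σ + ε)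

/-- the rational numbers with denominator in `V` at distance at most `κ / den ^ τ` from `ξ` -/
def Approx (V : Set ℕ) (τ κ ξ : ℝ) : Set ℚ :=
  {t | t.den ∈ V ∧ |(t : ℝ) - ξ| ≤ κ * (t.den : ℝ) ^ (-τ)}

/-- the set `P` has at most `C (log B) ^ s` elements of the denominator `v ≤ B` and with numerator at most `B` -/
def FewSet (P : Set ℚ) : Prop :=
  ∃ C s : ℕ, ∀ B v : ℕ, 2 ≤ B → v ≤ B → ∀ T : Finset ℚ,
    (∀ t ∈ T, t.den = v ∧ |t.num| ≤ B ∧ t ∈ P) → (T.card : ℝ) ≤ C * Real.log B ^ s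

/-- the height of a rational number -/
noncomputable def ht (t : ℚ) : ℝ := max ((|t.num| : ℤ) : ℝ) (t.den : ℝ)

lemma one_le_ht (t : ℚ) : 1 ≤ ht t :=
  le_max_of_le_right (by exact_mod_cast t.pos)

lemma log_pow_bound (s : ℕ) {δ : ℝ} (hδ : 0 < δ) :
    ∃ K : ℝ, 0 ≤ K ∧ ∀ N : ℕ, 1 ≤ N → Real.log ((max N 2 : ℕ) : ℝ) ^ s ≤ K * (N : ℝ) ^ δ := by
  set δ' : ℝ := δ / ((s : ℝ) + 1) with hδ'
  have h0 : 0 < δ' := by positivity
  refine ⟨2 ^ δ / δ' ^ s, by positivity, fun N hN => ?_⟩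
  set x : ℝ := ((max N 2 : ℕ) : ℝ) with hx
  have hx2 : (2 : ℝ) ≤ x := by
    calc (2 : ℝ) = ((2 : ℕ) : ℝ) := by norm_num
      _ ≤ ((max N 2 : ℕ) : ℝ) := Nat.cast_le.2 (le_max_right N 2)
  have hx0 : 0 < x := by linarith
  have hx1 : 1 ≤ x := by linarith
  have hN1 : (1 : ℝ) ≤ N := by exact_mod_cast hN
  have hxN : x ≤ 2 * N := by
    rw [hx, Nat.cast_max]
    refine max_le (by linarith) ?_
    push_cast
    linarith
  have h1 : Real.log x ≤ x ^ δ' / δ' := Real.log_le_rpow_div hx0.le h0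
  have hl : 0 ≤ Real.log x := Real.log_nonneg hx1
  calc Real.log x ^ s ≤ (x ^ δ' / δ') ^ s := pow_le_pow_left₀ hl h1 s
    _ = (x ^ δ') ^ s / δ' ^ s := div_pow _ _ _
    _ = x ^ (δ' * s) / δ' ^ s := by rw [← Real.rpow_natCast (x ^ δ') s, ← Real.rpow_mul hx0.le]
    _ ≤ x ^ δ / δ' ^ s := by
        have h2 : δ' * s ≤ δ := by
          rw [hδ', div_mul_eq_mul_div, div_le_iff₀ (by positivity)]
          nlinarith
        gcongr
    _ ≤ (2 * N) ^ δ / δ' ^ s := by gcongr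
    _ = 2 ^ δ / δ' ^ s * (N : ℝ) ^ δ := by
        rw [Real.mul_rpow (by norm_num) (by positivity)]
        ring

lemma finite_ht (N : ℕ) : {t : ℚ | |t.num| ≤ N ∧ t.den ≤ N}.Finite := by
  refine (((Finset.Icc (-(N : ℤ)) N ×ˢ Finset.range (N + 1)).image
    (fun p : ℤ × ℕ => (p.1 : ℚ) / (p.2 : ℚ))).finite_toSet).subset ?_
  rintro t ⟨h1, h2⟩
  rw [Finset.mem_coe, Finset.mem_image]
  refine ⟨(t.num, t.den), ?_, Rat.num_div_den t⟩
  rw [Finset.mem_product, Finset.mem_Icc, Finset.mem_range]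
  exact ⟨abs_le.1 h1, by simp only; omega⟩

open Classical in
theorem count (C s : ℕ) {P : Set ℚ} {V : Set ℕ} {σ : ℝ} (hV : ExpCount V σ)
    (h : ∀ B v : ℕ, 2 ≤ B → v ≤ B → ∀ T : Finset ℚ,
      (∀ t ∈ T, t.den = v ∧ |t.num| ≤ B ∧ t ∈ P) → (T.card : ℝ) ≤ C * Real.log B ^ s)
    (hσ : 0 ≤ σ) (ε : ℝ) (hε : 0 < ε) :
    ∃ K : ℝ, ∀ B : ℝ, 1 ≤ B → {t | (t.den ∈ V ∧ t ∈ P) ∧ ht t ≤ B}.Finite ∧
      (({t | (t.den ∈ V ∧ t ∈ P) ∧ ht t ≤ B}.ncard : ℕ) : ℝ) ≤ K * B ^ (σ + ε) := by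
  obtain ⟨K₁, hK₁⟩ := hV (ε / 2) (by positivity)
  obtain ⟨K₂, hK₂0, hK₂⟩ := log_pow_bound s (δ := ε / 2) (by positivity)
  refine ⟨|K₁| * (C * K₂), fun B hB => ?_⟩
  have hN1 : 1 ≤ ⌊B⌋₊ := Nat.le_floor (by exact_mod_cast hB)
  set N : ℕ := ⌊B⌋₊ with hN
  have hNB : (N : ℝ) ≤ B := Nat.floor_le (by linarith)
  have hN0 : (0 : ℝ) < N := by exact_mod_cast hN1
  set S : Set ℚ := {t | (t.den ∈ V ∧ t ∈ P) ∧ ht t ≤ B} with hS
  have hht : ∀ t ∈ S, |t.num| ≤ N ∧ t.den ≤ N := by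
    rintro t ⟨-, h1⟩
    have h2 : ((|t.num| : ℤ) : ℝ) ≤ B := (le_max_left _ _).trans h1
    have h3 : (t.den : ℝ) ≤ B := (le_max_right _ _).trans h1
    refine ⟨?_, Nat.le_floor h3⟩
    have h4 : t.num.natAbs ≤ N := Nat.le_floor (by rwa [Nat.cast_natAbs])
    rw [Int.abs_eq_natAbs]
    exact_mod_cast h4
  have hfin : S.Finite := (finite_ht N).subset hht
  refine ⟨hfin, ?_⟩
  have hDfin : {v | v ∈ V ∧ 1 ≤ v ∧ v ≤ N}.Finite :=
    (Set.finite_Icc 1 N).subset fun v hv => ⟨hv.2.1, hv.2.2⟩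
  have hmaps : ∀ t ∈ hfin.toFinset, t.den ∈ hDfin.toFinset := by
    intro t ht'
    rw [Set.Finite.mem_toFinset] at ht' ⊢
    exact ⟨ht'.1.1, t.pos, (hht t ht').2⟩
  set M : ℕ := max N 2 with hM
  have hfib : ∀ v ∈ hDfin.toFinset,
      ((hfin.toFinset.filter (fun t => t.den = v)).card : ℝ) ≤ C * Real.log M ^ s := by
    intro v hv
    rw [Set.Finite.mem_toFinset] at hv
    refine h M v (le_max_right _ _) (hv.2.2.trans (le_max_left _ _)) _ fun t ht' => ?_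
    rw [Finset.mem_filter, Set.Finite.mem_toFinset] at ht'
    refine ⟨ht'.2, (hht t ht'.1).1.trans ?_, ht'.1.1.2⟩
    exact_mod_cast le_max_left N 2
  have hcard : ((S.ncard : ℕ) : ℝ) ≤ (hDfin.toFinset.card : ℝ) * (C * Real.log M ^ s) := by
    rw [Set.ncard_eq_toFinset_card _ hfin, Finset.card_eq_sum_card_fiberwise hmaps]
    push_cast
    calc ∑ v ∈ hDfin.toFinset, ((hfin.toFinset.filter (fun t => t.den = v)).card : ℝ)
        ≤ ∑ _v ∈ hDfin.toFinset, (C * Real.log M ^ s) := Finset.sum_le_sum hfib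
      _ = _ := by rw [Finset.sum_const, nsmul_eq_mul]
  have hD : (hDfin.toFinset.card : ℝ) ≤ |K₁| * (N : ℝ) ^ (σ + ε / 2) := by
    rw [← Set.ncard_eq_toFinset_card _ hDfin]
    refine (hK₁ N hN1).trans ?_
    gcongr
    exact le_abs_self _
  have hL := hK₂ N hN1
  calc ((S.ncard : ℕ) : ℝ) ≤ (hDfin.toFinset.card : ℝ) * (C * Real.log M ^ s) := hcard
    _ ≤ (|K₁| * (N : ℝ) ^ (σ + ε / 2)) * (C * (K₂ * (N : ℝ) ^ (ε / 2))) := by
        have h5 : 0 ≤ Real.log (M : ℝ) := by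
          refine Real.log_nonneg ?_
          have : 2 ≤ M := le_max_right _ _
          exact_mod_cast (by omega : 1 ≤ M)
        gcongr
    _ = |K₁| * (C * K₂) * (N : ℝ) ^ (σ + ε) := by
        rw [show σ + ε = (σ + ε / 2) + ε / 2 by ring, Real.rpow_add hN0 (σ + ε / 2) (ε / 2)]
        ring
    _ ≤ |K₁| * (C * K₂) * B ^ (σ + ε) := by
        gcongr


/-- a set which works for all elements of a countable family of sets -/
theorem dim_all {I : Type} [Countable I] (P : I → Set ℚ) (hP : ∀ i, FewSet (P i)) (V : Set ℕ) (σ τ : ℝ)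
    (hσ : 0 ≤ σ) (hτ : 0 < τ) (hV : ExpCount V σ) :
    ∃ E : Set ℝ, dimH E ≤ ENNReal.ofReal (σ / τ) ∧ ∀ ξ : ℝ, ξ ∉ E → ∀ (i : I) (κ : ℝ),
      (Approx V τ κ ξ ∩ P i).Finite := by
  classical
  have h : ∀ i, ∃ E : Set ℝ, dimH E ≤ ENNReal.ofReal (σ / τ) ∧ ∀ ξ : ℝ, ξ ∉ E → ∀ κ : ℝ,
      (Approx V τ κ ξ ∩ P i).Finite := by
    intro i
    obtain ⟨C, s, hfew⟩ := hP i
    obtain ⟨E, h1, h2⟩ := Pool.Agent.R559.NP.near_dim (T := ℚ) (X := ℝ) (H := ht) one_le_ht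
      (Bad := fun t => t.den ∈ V ∧ t ∈ P i) hσ hτ
      (fun ε hε => count C s hV hfew hσ ε hε) (fun t => (t : ℝ))
    refine ⟨E, h1, fun ξ hξ κ => ?_⟩
    have h3 := h2 ξ hξ (|κ| * (|ξ| + |κ| + 1) ^ τ)
    refine h3.subset ?_
    rintro t ⟨⟨h4, h5⟩, h6⟩
    refine ⟨?_, h4, h6⟩
    have hd1 : (1 : ℝ) ≤ t.den := by exact_mod_cast t.pos
    have hd0 : (0 : ℝ) < t.den := by linarith
    have hdτ : (t.den : ℝ) ^ (-τ) ≤ 1 := Real.rpow_le_one_of_one_le_of_nonpos hd1 (by linarith)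
    have hdτ0 : 0 ≤ (t.den : ℝ) ^ (-τ) := by positivity
    have h7 : |(t : ℝ) - ξ| ≤ |κ| * (t.den : ℝ) ^ (-τ) :=
      h5.trans (mul_le_mul_of_nonneg_right (le_abs_self κ) hdτ0)
    have h8 : |(t : ℝ)| ≤ |ξ| + |κ| := by
      have e1 : |(t : ℝ)| ≤ |(t : ℝ) - ξ| + |ξ| := by
        calc |(t : ℝ)| = |((t : ℝ) - ξ) + ξ| := by ring_nf
          _ ≤ _ := abs_add_le _ _
      have e2 : |κ| * (t.den : ℝ) ^ (-τ) ≤ |κ| := by
        have := mul_le_mul_of_nonneg_left hdτ (abs_nonneg κ)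
        linarith
      linarith
    have h9 : ht t ≤ (|ξ| + |κ| + 1) * t.den := by
      refine max_le ?_ ?_
      · have e1 : ((|t.num| : ℤ) : ℝ) = |(t : ℝ)| * t.den := by
          have e2 : (t : ℝ) = (t.num : ℝ) / (t.den : ℝ) := Rat.cast_def t
          rw [e2, abs_div, abs_of_pos hd0, div_mul_cancel₀ _ hd0.ne']
          push_cast
          rfl
        rw [e1]
        gcongr
        linarith
      · have : 0 ≤ |ξ| + |κ| := by positivity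
        nlinarith
    have hht0 : 0 < ht t := lt_of_lt_of_le one_pos (one_le_ht t)
    have hK : 0 < |ξ| + |κ| + 1 := by positivity
    have h10 : (t.den : ℝ) ^ (-τ) ≤ (|ξ| + |κ| + 1) ^ τ * ht t ^ (-τ) := by
      have e1 : ((|ξ| + |κ| + 1) * t.den) ^ (-τ) ≤ ht t ^ (-τ) :=
        Real.rpow_le_rpow_of_nonpos hht0 h9 (by linarith)
      rw [Real.mul_rpow hK.le hd0.le] at e1
      calc (t.den : ℝ) ^ (-τ)
          = (|ξ| + |κ| + 1) ^ τ * ((|ξ| + |κ| + 1) ^ (-τ) * (t.den : ℝ) ^ (-τ)) := by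
            rw [← mul_assoc, ← Real.rpow_add hK, add_neg_cancel, Real.rpow_zero, one_mul]
        _ ≤ _ := by gcongr
    rw [Real.dist_eq]
    calc |(t : ℝ) - ξ| ≤ |κ| * (t.den : ℝ) ^ (-τ) := h7
      _ ≤ |κ| * ((|ξ| + |κ| + 1) ^ τ * ht t ^ (-τ)) := by gcongr
      _ = _ := by ring
  choose E hE1 hE2 using h
  refine ⟨⋃ c, E c, ?_, fun ξ hξ i κ => ?_⟩
  · rw [dimH_iUnion]
    exact iSup_le hE1
  · rw [Set.mem_iUnion] at hξ
    push Not at hξ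
    exact hE2 i ξ (hξ _) κ

lemma expCount_univ : ExpCount Set.univ 1 := by
  intro ε hε
  refine ⟨1, fun N hN => ?_⟩
  have h1 : {v : ℕ | v ∈ (Set.univ : Set ℕ) ∧ 1 ≤ v ∧ v ≤ N} = ↑(Finset.Icc 1 N) := by
    ext v
    simp
  rw [h1, Set.ncard_coe_finset, Nat.card_Icc, Nat.add_sub_cancel, one_mul]
  have hN1 : (1 : ℝ) ≤ N := by exact_mod_cast hN
  calc (N : ℝ) = (N : ℝ) ^ (1 : ℝ) := (Real.rpow_one _).symm
    _ ≤ _ := Real.rpow_le_rpow_of_exponent_le hN1 (by linarith)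

lemma dvd_pow_log {b v k L : ℕ} (hb : b ≠ 0) (hv : v ∣ b ^ k) (hv0 : v ≠ 0) (hL : v < 2 ^ L) : v ∣ b ^ L := by
  rw [← Nat.factorization_le_iff_dvd hv0 (pow_ne_zero _ hb)]
  intro p
  rw [Nat.factorization_pow, Finsupp.smul_apply, smul_eq_mul]
  by_cases hp : v.factorization p = 0
  · omega
  · have hpp : p.Prime := by
      by_contra hcon
      exact hp (Nat.factorization_eq_zero_of_not_prime _ hcon)
    have hpv : p ∣ v := Nat.dvd_of_factorization_pos hp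
    have hpb : p ∣ b := hpp.dvd_of_dvd_pow (hpv.trans hv)
    have h1 : 1 ≤ b.factorization p := hpp.factorization_pos_of_dvd hb hpb
    have h2 : p ^ v.factorization p ≤ v := Nat.ordProj_le p hv0
    have h3 : v.factorization p < L := by
      by_contra hcon
      have h4 : 2 ^ L ≤ p ^ v.factorization p :=
        (Nat.pow_le_pow_left hpp.two_le L).trans (Nat.pow_le_pow_right hpp.pos (by omega))
      omega
    nlinarith

lemma card_divisors_pow {b : ℕ} (hb : b ≠ 0) (L : ℕ) :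
    (b ^ L).divisors.card ≤ (L + 1) ^ b.primeFactors.card * b.divisors.card := by
  rcases Nat.eq_zero_or_pos L with h | h
  · subst h
    have h1 : 1 ≤ b.divisors.card := Finset.card_pos.2 ⟨1, Nat.one_mem_divisors.2 hb⟩
    simpa using h1
  · rw [Nat.card_divisors (pow_ne_zero _ hb), Nat.card_divisors hb, Nat.primeFactors_pow b h.ne',
      ← Finset.prod_const, ← Finset.prod_mul_distrib]
    refine Finset.prod_le_prod' fun p _ => ?_
    rw [Nat.factorization_pow, Finsupp.smul_apply, smul_eq_mul]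
    nlinarith

lemma expCount_base {b : ℕ} (hb : 2 ≤ b) : ExpCount {v | ∃ k : ℕ, v ∣ b ^ k} 0 := by
  intro ε hε
  obtain ⟨K, hK0, hK⟩ := log_pow_bound b.primeFactors.card hε
  refine ⟨5 ^ b.primeFactors.card * K * b.divisors.card, fun N hN => ?_⟩
  have hb0 : b ≠ 0 := by omega
  set L : ℕ := Nat.log 2 N + 1 with hL
  have hN2 : N < 2 ^ L := Nat.lt_pow_succ_log_self one_lt_two N
  have hsub : {v : ℕ | v ∈ {v | ∃ k : ℕ, v ∣ b ^ k} ∧ 1 ≤ v ∧ v ≤ N} ⊆ ↑((b ^ L).divisors) := by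
    rintro v ⟨⟨k, hk⟩, h1, h2⟩
    rw [Finset.mem_coe, Nat.mem_divisors]
    exact ⟨dvd_pow_log hb0 hk (by omega) (lt_of_le_of_lt h2 hN2), pow_ne_zero _ hb0⟩
  have h1 : {v : ℕ | v ∈ {v | ∃ k : ℕ, v ∣ b ^ k} ∧ 1 ≤ v ∧ v ≤ N}.ncard ≤ (b ^ L).divisors.card := by
    rw [← Set.ncard_coe_finset]
    exact Set.ncard_le_ncard hsub (Finset.finite_toSet _)
  have h2 := h1.trans (card_divisors_pow hb0 L)
  set M : ℕ := max N 2 with hM
  have hM2 : (2 : ℝ) ≤ M := by exact_mod_cast le_max_right N 2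
  have hlogM : Real.log 2 ≤ Real.log M := Real.log_le_log (by norm_num) hM2
  have hlog2 : (0.69 : ℝ) < Real.log 2 := by
    have := Real.log_two_gt_d9
    linarith
  have h3 : ((L : ℝ) + 1) ≤ 5 * Real.log M := by
    have e1 : (Nat.log 2 N : ℝ) * Real.log 2 ≤ Real.log M := by
      have e2 : ((2 ^ Nat.log 2 N : ℕ) : ℝ) ≤ M := by
        have e3 : 2 ^ Nat.log 2 N ≤ N := Nat.pow_log_le_self 2 (by omega)
        exact_mod_cast e3.trans (le_max_left N 2)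
      have e4 := Real.log_le_log (by positivity) e2
      push_cast at e4
      rwa [Real.log_pow] at e4
    rw [hL]
    push_cast
    have e5 : (0 : ℝ) ≤ (Nat.log 2 N : ℝ) := Nat.cast_nonneg _
    nlinarith
  have h4 := hK N hN
  calc (({v : ℕ | v ∈ {v | ∃ k : ℕ, v ∣ b ^ k} ∧ 1 ≤ v ∧ v ≤ N}.ncard : ℕ) : ℝ)
      ≤ (((L + 1) ^ b.primeFactors.card * b.divisors.card : ℕ) : ℝ) := by exact_mod_cast h2
    _ = ((L : ℝ) + 1) ^ b.primeFactors.card * b.divisors.card := by push_cast; ring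
    _ ≤ (5 * Real.log M) ^ b.primeFactors.card * b.divisors.card := by gcongr
    _ = 5 ^ b.primeFactors.card * Real.log M ^ b.primeFactors.card * b.divisors.card := by
        rw [mul_pow]
    _ ≤ 5 ^ b.primeFactors.card * (K * (N : ℝ) ^ ε) * b.divisors.card := by gcongr
    _ = 5 ^ b.primeFactors.card * K * b.divisors.card * (N : ℝ) ^ (0 + ε) := by
        rw [zero_add]
        ring

/-- the truncations of the expansion in the base `b` -/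
lemma trunc {b : ℕ} (hb : 2 ≤ b) (ξ : ℝ) (k : ℕ) :
    ((((⌊(b : ℝ) ^ k * ξ⌋ : ℤ) : ℚ) / (b : ℚ) ^ k : ℚ)).den ∣ b ^ k ∧
      |((((⌊(b : ℝ) ^ k * ξ⌋ : ℤ) : ℚ) / (b : ℚ) ^ k : ℚ) : ℝ) - ξ| ≤ ((b : ℝ) ^ k)⁻¹ := by
  have hb0 : (0 : ℝ) < b := by exact_mod_cast (by omega : 0 < b)
  have hbk : (0 : ℝ) < (b : ℝ) ^ k := by positivity
  constructor
  · have h1 := Rat.den_dvd ⌊(b : ℝ) ^ k * ξ⌋ ((b ^ k : ℕ) : ℤ)
    rw [Rat.divInt_eq_div] at h1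
    push_cast at h1
    exact_mod_cast h1
  · push_cast
    have h1 := Int.floor_le ((b : ℝ) ^ k * ξ)
    have h2 := Int.lt_floor_add_one ((b : ℝ) ^ k * ξ)
    rw [show ((⌊(b : ℝ) ^ k * ξ⌋ : ℤ) : ℝ) / (b : ℝ) ^ k - ξ =
      (((⌊(b : ℝ) ^ k * ξ⌋ : ℤ) : ℝ) - (b : ℝ) ^ k * ξ) / (b : ℝ) ^ k by field_simp]
    rw [abs_div, abs_of_pos hbk, div_le_iff₀ hbk, inv_mul_cancel₀ hbk.ne', abs_le]
    constructor <;> linarith


/-- the truncations of the expansions in all bases -/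
theorem trunc_all {I : Type} [Countable I] (P : I → Set ℚ) (hP : ∀ i, FewSet (P i)) :
    ∃ E : Set ℝ, dimH E = 0 ∧ ∀ ξ : ℝ, ξ ∉ E → ∀ (i : I) (b : ℕ), 2 ≤ b →
      ∃ k₀ : ℕ, ∀ k : ℕ, k₀ ≤ k → ((((⌊(b : ℝ) ^ k * ξ⌋ : ℤ) : ℚ) / (b : ℚ) ^ k : ℚ)) ∉ P i := by
  have h : ∀ b : ℕ, ∃ E : Set ℝ, dimH E = 0 ∧ ∀ ξ : ℝ, ξ ∉ E → 2 ≤ b → ∀ (i : I) (κ : ℝ),
      (Approx {v | ∃ k : ℕ, v ∣ b ^ k} 1 κ ξ ∩ P i).Finite := by
    intro b
    by_cases hb : 2 ≤ b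
    · obtain ⟨E, h1, h2⟩ := dim_all P hP {v | ∃ k : ℕ, v ∣ b ^ k} 0 1 le_rfl one_pos (expCount_base hb)
      refine ⟨E, ?_, fun ξ hξ _ => h2 ξ hξ⟩
      rw [zero_div, ENNReal.ofReal_zero] at h1
      exact nonpos_iff_eq_zero.1 h1
    · exact ⟨∅, by simp, fun ξ _ h => absurd h hb⟩
  choose E hE1 hE2 using h
  refine ⟨(⋃ b, E b) ∪ Set.range ((↑) : ℚ → ℝ), ?_, fun ξ hξ i b hb => ?_⟩
  · rw [dimH_union, dimH_iUnion, (Set.countable_range _).dimH_zero]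
    simp [hE1]
  · rw [Set.mem_union, not_or, Set.mem_iUnion] at hξ
    push Not at hξ
    have hfin := hE2 b ξ (hξ.1 b) hb i 1
    set S := hfin.toFinset with hS
    have hb0 : (0 : ℝ) < b := by exact_mod_cast (by omega : 0 < b)
    have hb1 : (1 : ℝ) < b := by exact_mod_cast (by omega : 1 < b)
    have hlim : Tendsto (fun k : ℕ => ((b : ℝ) ^ k)⁻¹) atTop (𝓝 0) :=
      (tendsto_pow_atTop_atTop_of_one_lt hb1).inv_tendsto_atTop
    have hk : ∀ t : ℚ, ∃ k₀ : ℕ, ∀ k : ℕ, k₀ ≤ k → ((b : ℝ) ^ k)⁻¹ < |(t : ℝ) - ξ| := by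
      intro t
      have h0 : 0 < |(t : ℝ) - ξ| := by
        rw [abs_pos, sub_ne_zero]
        intro h
        exact hξ.2 ⟨t, h⟩
      exact eventually_atTop.1 (hlim.eventually (gt_mem_nhds h0))
    choose k₀ hk₀ using hk
    refine ⟨S.sup k₀, fun k hk hcon => ?_⟩
    obtain ⟨h1, h2⟩ := trunc hb ξ k
    set t : ℚ := (((⌊(b : ℝ) ^ k * ξ⌋ : ℤ) : ℚ) / (b : ℚ) ^ k : ℚ) with ht
    have hdle : (t.den : ℝ) ≤ (b : ℝ) ^ k := by
      have : t.den ≤ b ^ k := Nat.le_of_dvd (by positivity) h1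
      exact_mod_cast this
    have hd0 : (0 : ℝ) < t.den := by exact_mod_cast t.pos
    have hmem : t ∈ S := by
      rw [hS, Set.Finite.mem_toFinset]
      refine ⟨⟨⟨k, h1⟩, ?_⟩, hcon⟩
      rw [one_mul, Real.rpow_neg_one]
      exact h2.trans (inv_anti₀ hd0 hdle)
    have h3 := hk₀ t k ((Finset.le_sup hmem).trans hk)
    linarith

/-- the approximations of order two -/
theorem conv_all {I : Type} [Countable I] (P : I → Set ℚ) (hP : ∀ i, FewSet (P i)) :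
    ∃ E : Set ℝ, dimH E ≤ ENNReal.ofReal (1 / 2) ∧ ∀ ξ : ℝ, ξ ∉ E → ∀ (i : I) (κ : ℝ),
      {t : ℚ | |(t : ℝ) - ξ| ≤ κ / (t.den : ℝ) ^ 2 ∧ t ∈ P i}.Finite := by
  obtain ⟨E, h1, h2⟩ := dim_all P hP Set.univ 1 2 zero_le_one two_pos expCount_univ
  refine ⟨E, h1, fun ξ hξ i κ => (h2 ξ hξ i κ).subset ?_⟩
  rintro t ⟨h3, h4⟩
  refine ⟨⟨Set.mem_univ _, ?_⟩, h4⟩
  have e : (t.den : ℝ) ^ (-(2 : ℝ)) = ((t.den : ℝ) ^ 2)⁻¹ := by
    rw [Real.rpow_neg (Nat.cast_nonneg _)]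
    norm_num
  rw [e, ← div_eq_mul_inv]
  exact h3

/-- almost all points -/
theorem ae_all {I : Type} [Countable I] (P : I → Set ℚ) (hP : ∀ i, FewSet (P i)) (V : Set ℕ) (σ : ℝ)
    (hσ : 0 ≤ σ) (hV : ExpCount V σ) : ∀ᵐ ξ : ℝ, ∀ τ : ℝ, σ < τ → ∀ (i : I) (κ : ℝ),
      (Approx V τ κ ξ ∩ P i).Finite := by
  have h : ∀ j : ℕ, ∀ᵐ ξ : ℝ, ∀ (i : I) (κ : ℝ),
      (Approx V (σ + 1 / ((j : ℝ) + 1)) κ ξ ∩ P i).Finite := by
    intro j
    have hj : 0 < 1 / ((j : ℝ) + 1) := by positivity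
    obtain ⟨E, h1, h2⟩ := dim_all P hP V σ (σ + 1 / ((j : ℝ) + 1)) hσ (by positivity) hV
    have h3 : volume E = 0 := by
      refine measure_zero_of_dimH_lt (d := 1) ?_ ?_
      · rw [NNReal.coe_one, hausdorffMeasure_real]
      · refine lt_of_le_of_lt h1 ?_
        rw [ENNReal.coe_one, ← ENNReal.ofReal_one]
        rw [ENNReal.ofReal_lt_ofReal_iff one_pos, div_lt_one (by positivity)]
        linarith
    have h4 : ∀ᵐ ξ : ℝ, ξ ∉ E := by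
      rw [ae_iff]
      simpa using h3
    filter_upwards [h4] with ξ hξ
    exact h2 ξ hξ
  filter_upwards [ae_all_iff.2 h] with ξ hξ τ hτ i κ
  obtain ⟨j, hj⟩ := exists_nat_one_div_lt (sub_pos.2 hτ)
  refine (hξ j i |κ|).subset ?_
  rintro t ⟨⟨h1, h2⟩, h3⟩
  refine ⟨⟨h1, h2.trans ?_⟩, h3⟩
  have hd1 : (1 : ℝ) ≤ t.den := by exact_mod_cast t.pos
  calc κ * (t.den : ℝ) ^ (-τ) ≤ |κ| * (t.den : ℝ) ^ (-τ) :=
        mul_le_mul_of_nonneg_right (le_abs_self κ) (by positivity)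
    _ ≤ |κ| * (t.den : ℝ) ^ (-(σ + 1 / ((j : ℝ) + 1))) := by
        refine mul_le_mul_of_nonneg_left ?_ (abs_nonneg κ)
        exact Real.rpow_le_rpow_of_exponent_le hd1 (by linarith)

end Pool.Agent.T6.H41.NR
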